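import Mathlib

/-!
# Aographs, their dimension, and order-preserving embeddings in books

An aograph is a finite oriented graph with no directed cycle.
-/

set_option autoImplicit false

namespace Pool.Agent.Helper46.Book

/-! ## Definitions -/

/-- An aograph: a finite directed graph without directed cycles (in particular without loops
and without pairs of opposite edges).  `G.Edge b a` means that there is an edge directed from
`b` to `a`. -/
structure Aograph where
  /-- the vertices -/
  V : Type
  /-- there are finitely many vertices -/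
  finite : Finite V
  /-- `Edge b a`: there is an edge directed from `b` to `a` -/
  Edge : V → V → Prop
  /-- there is no directed cycle -/
  acyclic : ∀ v, ¬ Relation.TransGen Edge v v

/-- The partial order `P(G)` on the vertices of an aograph `G`: `a ≤ b` iff there is a directed
path (possibly of length zero) from `b` to `a`. -/
instance Aograph.order (G : Aograph) : PartialOrder G.V where
  le a b := Relation.ReflTransGen G.Edge b a
  le_refl _ := Relation.ReflTransGen.refl
  le_trans _ _ _ h₁ h₂ := h₂.trans h₁
  le_antisymm a b h₁ h₂ := by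
    rcases Relation.reflTransGen_iff_eq_or_transGen.1 h₁ with h | h
    · exact h
    · exact absurd (Relation.TransGen.trans_left h h₂) (G.acyclic b)

/-- An aograph is bounded if its partial order has a greatest and a least element. -/
def Aograph.IsBounded (G : Aograph) : Prop :=
  (∃ t : G.V, ∀ v : G.V, v ≤ t) ∧ (∃ b : G.V, ∀ v : G.V, b ≤ v)

/-- The relation `L` is a linear extension of the partial order of `α`. -/
def IsLinearExtension {α : Type} [PartialOrder α] (L : α → α → Prop) : Prop :=
  IsLinearOrder α L ∧ ∀ a b : α, a ≤ b → L a b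

/-- The partial order of `α` is the intersection of `t` linear extensions of it. -/
def IsIntersectionOf (α : Type) [PartialOrder α] (t : ℕ) : Prop :=
  ∃ L : Fin t → α → α → Prop, (∀ i, IsLinearExtension (L i)) ∧
    ∀ a b : α, a ≤ b ↔ ∀ i, L i a b

/-- The dimension of a partial order: the least positive integer `t` such that it is the
intersection of `t` linear extensions of it. -/
noncomputable def orderDim (α : Type) [PartialOrder α] : ℕ :=
  sInf {t : ℕ | 0 < t ∧ IsIntersectionOf α t}

/-- The space `ℝ³`; the coordinates `p 0`, `p 1`, `p 2` of a point `p` are `x`, `y`, `z`. -/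
abbrev Space : Type := Fin 3 → ℝ

/-- The closed half-plane bounded by the `z`-axis in the horizontal direction `u`. -/
def halfPlane (u : ℝ × ℝ) : Set Space :=
  {p | ∃ r : ℝ, 0 ≤ r ∧ p 0 = r * u.1 ∧ p 1 = r * u.2}

/-- `B` is a book with `n` pages: the union of `n` distinct closed half-planes whose common
boundary is the `z`-axis. -/
def IsBook (n : ℕ) (B : Set Space) : Prop :=
  ∃ H : Fin n → Set Space, Function.Injective H ∧
    (∀ i, ∃ u : ℝ × ℝ, u ≠ 0 ∧ H i = halfPlane u) ∧ B = ⋃ i, H i

/-- The path `γ`, considered on `[0,1]`, is piecewise linear: `[0,1]` is cut by finitely many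
points `0 = t₀ ≤ t₁ ≤ ⋯ ≤ tₖ = 1` into closed intervals on each of which `γ` is affine. -/
def IsPiecewiseLinear (γ : ℝ → Space) : Prop :=
  ∃ (k : ℕ) (t : Fin (k + 1) → ℝ), t 0 = 0 ∧ t (Fin.last k) = 1 ∧ Monotone t ∧
    ∀ i : Fin k, ∃ p v : Space, ∀ s ∈ Set.Icc (t i.castSucc) (t i.succ), γ s = p + s • v

/-- An order-preserving embedding of the aograph `G` in the subset `B` of `ℝ³`.  The vertex `v`
is placed at `pos v`, and the edge from `b` to `a` is drawn along the arc
`{arc b a s | s ∈ [0,1]}`. -/
structure OrderPreservingEmbedding (G : Aograph) (B : Set Space) where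
  /-- the position of a vertex -/
  pos : G.V → Space
  /-- distinct vertices are placed at distinct points -/
  pos_injective : Function.Injective pos
  /-- the vertices are placed at points of `B` -/
  pos_mem : ∀ v, pos v ∈ B
  /-- the parametrised arc of an edge (irrelevant for pairs that are not edges) -/
  arc : G.V → G.V → ℝ → Space
  /-- arcs are piecewise linear -/
  arc_pl : ∀ b a, G.Edge b a → IsPiecewiseLinear (arc b a)
  /-- the arc of the edge from `b` to `a` starts at `b` -/
  arc_zero : ∀ b a, G.Edge b a → arc b a 0 = pos b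
  /-- the arc of the edge from `b` to `a` ends at `a` -/
  arc_one : ∀ b a, G.Edge b a → arc b a 1 = pos a
  /-- arcs run inside `B` -/
  arc_mem : ∀ b a, G.Edge b a → ∀ s ∈ Set.Icc (0 : ℝ) 1, arc b a s ∈ B
  /-- the `z`-coordinate strictly decreases along the arc from `b` to `a` -/
  arc_down : ∀ b a, G.Edge b a → StrictAntiOn (fun s => arc b a s 2) (Set.Icc (0 : ℝ) 1)
  /-- a common point of the arcs of two distinct edges is an endpoint of both arcs -/
  arc_inter : ∀ b a b' a', G.Edge b a → G.Edge b' a' → (b, a) ≠ (b', a') →
    ∀ s ∈ Set.Icc (0 : ℝ) 1, ∀ s' ∈ Set.Icc (0 : ℝ) 1, arc b a s = arc b' a' s' →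
      (s = 0 ∨ s = 1) ∧ (s' = 0 ∨ s' = 1)
  /-- an arc passes through no vertex other than its endpoints -/
  arc_vertex : ∀ b a v, G.Edge b a → ∀ s ∈ Set.Icc (0 : ℝ) 1, arc b a s = pos v →
    (s = 0 ∨ s = 1)

end Pool.Agent.Helper46.Book
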