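import Pool.Agent.Helper46.Book.Defs

/-!
# Kelly-type aographs drawn on three pages
-/

set_option autoImplicit false

namespace Pool.Agent.Helper46.Book

/-! ## The dimension: realizers exist, and the standard example forces large dimension -/

/-- Every pair `x ≰ y` is reversed by some linear extension. -/
theorem exists_linearExtension_reversing {α : Type} [PartialOrder α] (x y : α) (h : ¬ x ≤ y) :
    ∃ L : α → α → Prop, IsLinearExtension L ∧ ¬ L x y := by
  let r : α → α → Prop := fun a b => a ≤ b ∨ (a ≤ y ∧ x ≤ b)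
  have hr : IsPartialOrder α r :=
    { refl := fun a => Or.inl le_rfl
      trans := by
        rintro a b c (hab | ⟨h1, h2⟩) (hbc | ⟨h3, h4⟩)
        · exact Or.inl (hab.trans hbc)
        · exact Or.inr ⟨hab.trans h3, h4⟩
        · exact Or.inr ⟨h1, h2.trans hbc⟩
        · exact absurd (h2.trans h3) h
      antisymm := by
        rintro a b (hab | ⟨h1, h2⟩) (hba | ⟨h3, h4⟩)
        · exact le_antisymm hab hba
        · exact absurd (h4.trans (hab.trans h3)) h
        · exact absurd (h2.trans (hba.trans h1)) h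
        · exact absurd (h2.trans h3) h }
  obtain ⟨s, hs, hrs⟩ := extend_partialOrder r
  have hyx : s y x := hrs _ _ (Or.inr ⟨le_rfl, le_rfl⟩)
  refine ⟨s, ⟨hs, fun a b hab => hrs _ _ (Or.inl hab)⟩, fun hxy => ?_⟩
  have : x = y := hs.antisymm _ _ hxy hyx
  exact h this.le

/-- A finite partial order is the intersection of finitely many linear extensions. -/
theorem exists_isIntersectionOf (α : Type) [PartialOrder α] [Finite α] :
    ∃ t : ℕ, 0 < t ∧ IsIntersectionOf α t := by
  classical
  -- index by all pairs, with an arbitrary linear extension for comparable pairs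
  obtain ⟨L₀, hL₀, hle⟩ := extend_partialOrder ((· ≤ ·) : α → α → Prop)
  have key : ∀ q : Option (α × α), ∃ L : α → α → Prop, IsLinearExtension L ∧
      ∀ x y, q = some (x, y) → ¬ x ≤ y → ¬ L x y := by
    rintro (_ | ⟨x, y⟩)
    · exact ⟨L₀, ⟨hL₀, fun a b h => hle _ _ h⟩, fun x y h => by simp at h⟩
    · by_cases h : x ≤ y
      · refine ⟨L₀, ⟨hL₀, fun a b h => hle _ _ h⟩, fun x' y' h' hn => ?_⟩
        simp only [Option.some.injEq, Prod.mk.injEq] at h'
        obtain ⟨rfl, rfl⟩ := h'
        exact absurd h hn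
      · obtain ⟨L, hL, hn⟩ := exists_linearExtension_reversing x y h
        refine ⟨L, hL, fun x' y' h' _ => ?_⟩
        simp only [Option.some.injEq, Prod.mk.injEq] at h'
        obtain ⟨rfl, rfl⟩ := h'
        exact hn
  choose L hL hrev using key
  obtain ⟨n, ⟨e⟩⟩ := Finite.exists_equiv_fin (Option (α × α))
  refine ⟨n, ?_, fun i => L (e.symm i), fun i => hL _, fun a b => ⟨fun h i => (hL _).2 _ _ h, ?_⟩⟩
  · rcases Nat.eq_zero_or_pos n with h | h
    · subst h
      exact (e none).elim0
    · exact h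
  · intro h
    by_contra hn
    have := h (e (some (a, b)))
    simp only [Equiv.symm_apply_apply] at this
    exact hrev _ a b rfl hn this

/-- Sanity check: the dimension of a finite partial order is attained. -/
theorem orderDim_spec (α : Type) [PartialOrder α] [Finite α] :
    0 < orderDim α ∧ IsIntersectionOf α (orderDim α) :=
  Nat.sInf_mem (s := {t : ℕ | 0 < t ∧ IsIntersectionOf α t}) (exists_isIntersectionOf α)

/-- If `α` contains the standard example on `k` pairs then its dimension is at least `k`. -/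
theorem le_orderDim_of_standard {α : Type} [PartialOrder α] [Finite α] {k : ℕ}
    (a b : Fin k → α) (h : ∀ i j, a i ≤ b j ↔ i ≠ j) : k ≤ orderDim α := by
  obtain ⟨-, L, hL, hint⟩ := orderDim_spec α
  have key : ∀ i : Fin k, ∃ s, ¬ L s (a i) (b i) := by
    intro i
    by_contra! hcon
    exact ((h i i).1 ((hint _ _).2 hcon)) rfl
  choose f hf using key
  have hinj : Function.Injective f := by
    intro i j hij
    by_contra hne
    have hlin := (hL (f i)).1
    have h1 : L (f i) (b i) (a i) := (hlin.total (a i) (b i)).resolve_left (hf i)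
    have h2 : ¬ L (f i) (a j) (b j) := by rw [hij]; exact hf j
    have h3 : L (f i) (a j) (b i) := (hL _).2 _ _ ((h j i).2 (Ne.symm hne))
    have h4 : L (f i) (a i) (b j) := (hL _).2 _ _ ((h i j).2 hne)
    exact h2 (hlin.trans _ _ _ h3 (hlin.trans _ _ _ h1 h4))
  simpa using Fintype.card_le_of_injective f hinj

/-! ## The aographs -/

/-- The vertices of the `m`-th aograph. -/
inductive Vert (m : ℕ) : Type
  | top : Vert m
  | bot : Vert m
  | a (i : Fin (m + 1)) : Vert m
  | b (i : Fin (m + 1)) : Vert m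
  | c (i : Fin m) : Vert m
  | d (i : Fin m) : Vert m

/-- The edges of the `m`-th aograph. -/
inductive IsEdge (m : ℕ) : Vert m → Vert m → Prop
  | tb (i : Fin (m + 1)) : IsEdge m .top (.b i)
  | ab (i : Fin (m + 1)) : IsEdge m (.a i) .bot
  | cc (i j : Fin m) (h : (i : ℕ) + 1 = j) : IsEdge m (.c j) (.c i)
  | dd (i j : Fin m) (h : (i : ℕ) + 1 = j) : IsEdge m (.d i) (.d j)
  | ca (i : Fin m) : IsEdge m (.c i) (.a i.castSucc)
  | da (i : Fin m) : IsEdge m (.d i) (.a i.succ)
  | bc (i : Fin m) : IsEdge m (.b i.succ) (.c i)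
  | bd (i : Fin m) : IsEdge m (.b i.castSucc) (.d i)

instance (m : ℕ) : Finite (Vert m) := by
  let f : Vert m → (Bool ⊕ (Fin (m + 1) ⊕ Fin (m + 1))) ⊕ (Fin m ⊕ Fin m)
    | .top => .inl (.inl true)
    | .bot => .inl (.inl false)
    | .a i => .inl (.inr (.inl i))
    | .b i => .inl (.inr (.inr i))
    | .c i => .inr (.inl i)
    | .d i => .inr (.inr i)
  have hf : Function.Injective f := by
    intro x y h
    cases x <;> cases y <;> simp_all [f]
  exact Finite.of_injective f hf

/-- The horizontal coordinates on the three pages, and the height, of a vertex. -/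
noncomputable def coord (m : ℕ) : Vert m → Fin 4 → ℝ
  | .top => ![0, 0, 1, (m : ℝ) + 2]
  | .bot => ![0, 0, 1, -((m : ℝ) + 2)]
  | .a i => ![0, 0, 0, -(((i : ℕ) : ℝ) + 1)]
  | .b i => ![0, 0, 0, ((i : ℕ) : ℝ) + 1]
  | .c i => ![((i : ℕ) : ℝ) + 1, 0, 0, ((i : ℕ) : ℝ) + 1]
  | .d i => ![0, ((i : ℕ) : ℝ) + 1, 0, -(((i : ℕ) : ℝ) + 1)]

/-- The vertices that lie above `a i`. -/
def Up (m : ℕ) (i : Fin (m + 1)) : Vert m → Prop
  | .top => True
  | .bot => False
  | .a j => j = i
  | .b j => j ≠ i
  | .c j => (i : ℕ) ≤ j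
  | .d j => (j : ℕ) < i

theorem up_of_edge {m : ℕ} {i : Fin (m + 1)} {x y : Vert m} (h : IsEdge m x y)
    (hy : Up m i y) : Up m i x := by
  cases h <;> simp only [Up, Fin.ext_iff, Fin.val_castSucc, Fin.val_succ, ne_eq] at * <;> omega

theorem up_of_reach {m : ℕ} {i : Fin (m + 1)} {x y : Vert m}
    (h : Relation.ReflTransGen (IsEdge m) x y) (hy : Up m i y) : Up m i x := by
  induction h with
  | refl => exact hy
  | tail _ hbc ih => exact ih (up_of_edge hbc hy)

/-- Along an edge the height strictly decreases. -/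
theorem height_lt {m : ℕ} {x y : Vert m} (h : IsEdge m x y) : coord m y 3 < coord m x 3 := by
  cases h with
  | tb i =>
    have : ((i : ℕ) : ℝ) ≤ m := by exact_mod_cast Nat.lt_succ_iff.1 i.2
    simp [coord]; linarith
  | ab i =>
    have : ((i : ℕ) : ℝ) ≤ m := by exact_mod_cast Nat.lt_succ_iff.1 i.2
    simp [coord]; linarith
  | cc i j h =>
    have : ((i : ℕ) : ℝ) + 1 = (j : ℕ) := by exact_mod_cast h
    simp only [coord, Matrix.cons_val]; linarith
  | dd i j h =>
    have : ((i : ℕ) : ℝ) + 1 = (j : ℕ) := by exact_mod_cast h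
    simp [coord]; linarith
  | ca i =>
    have : (0 : ℝ) ≤ ((i : ℕ) : ℝ) := by positivity
    simp [coord]; linarith
  | da i => simp only [coord, Matrix.cons_val, Fin.val_succ]; push_cast; linarith
  | bc i => simp only [coord, Matrix.cons_val, Fin.val_succ]; push_cast; linarith
  | bd i =>
    have : (0 : ℝ) ≤ ((i : ℕ) : ℝ) := by positivity
    simp [coord]; linarith

theorem height_lt_of_path {m : ℕ} {x y : Vert m} (h : Relation.TransGen (IsEdge m) x y) :
    coord m y 3 < coord m x 3 := by
  induction h with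
  | single h => exact height_lt h
  | tail _ hbc ih => exact (height_lt hbc).trans ih

/-- The `m`-th aograph. -/
def aograph (m : ℕ) : Aograph where
  V := Vert m
  finite := inferInstance
  Edge := IsEdge m
  acyclic _ h := lt_irrefl _ (height_lt_of_path h)

theorem le_iff {m : ℕ} (x y : Vert m) :
    (show (aograph m).V from x) ≤ (show (aograph m).V from y) ↔
      Relation.ReflTransGen (IsEdge m) y x := Iff.rfl

theorem c_reach {m : ℕ} (i j : Fin m) (h : (i : ℕ) ≤ j) :
    Relation.ReflTransGen (IsEdge m) (.c j) (.c i) := by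
  obtain ⟨n, hn⟩ := Nat.exists_eq_add_of_le h
  induction n generalizing j with
  | zero =>
    have : i = j := Fin.ext (by simpa using hn.symm)
    subst this
    exact Relation.ReflTransGen.refl
  | succ n ih =>
    have hj : (i : ℕ) + n < m := by omega
    exact Relation.ReflTransGen.head (IsEdge.cc ⟨(i : ℕ) + n, hj⟩ j (by simp; omega))
      (ih ⟨(i : ℕ) + n, hj⟩ (by simp) (by simp))

theorem d_reach {m : ℕ} (i j : Fin m) (h : (i : ℕ) ≤ j) :
    Relation.ReflTransGen (IsEdge m) (.d i) (.d j) := by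
  obtain ⟨n, hn⟩ := Nat.exists_eq_add_of_le h
  induction n generalizing j with
  | zero =>
    have : i = j := Fin.ext (by simpa using hn.symm)
    subst this
    exact Relation.ReflTransGen.refl
  | succ n ih =>
    have hj : (i : ℕ) + n < m := by omega
    exact Relation.ReflTransGen.tail (ih ⟨(i : ℕ) + n, hj⟩ (by simp) (by simp))
      (IsEdge.dd ⟨(i : ℕ) + n, hj⟩ j (by simp; omega))

theorem standard {m : ℕ} (i j : Fin (m + 1)) :
    Relation.ReflTransGen (IsEdge m) (.b j) (.a i) ↔ i ≠ j := by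
  constructor
  · intro h
    have : Up m i (.b j) := up_of_reach h (by simp [Up])
    simpa [Up, eq_comm] using this
  · intro h
    rcases lt_or_gt_of_ne (fun h' => h (Fin.ext h') : (i : ℕ) ≠ j) with h | h
    · -- `i < j`: go down the chain `c`
      have hj : (j : ℕ) - 1 < m := by omega
      have hi : (i : ℕ) < m := by omega
      have e1 : IsEdge m (.b j) (.c ⟨(j : ℕ) - 1, hj⟩) := by
        have := IsEdge.bc (m := m) ⟨(j : ℕ) - 1, hj⟩
        rwa [show (⟨(j : ℕ) - 1, hj⟩ : Fin m).succ = j from Fin.ext (by simp; omega)] at this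
      have e2 : IsEdge m (.c ⟨i, hi⟩) (.a i) := IsEdge.ca (m := m) ⟨i, hi⟩
      exact (Relation.ReflTransGen.head e1 (c_reach ⟨i, hi⟩ ⟨(j : ℕ) - 1, hj⟩
        (by simp; omega))).tail e2
    · -- `j < i`: go down the chain `d`
      have hi : (i : ℕ) - 1 < m := by omega
      have hj : (j : ℕ) < m := by omega
      have e1 : IsEdge m (.b j) (.d ⟨j, hj⟩) := IsEdge.bd (m := m) ⟨j, hj⟩
      have e2 : IsEdge m (.d ⟨(i : ℕ) - 1, hi⟩) (.a i) := by
        have := IsEdge.da (m := m) ⟨(i : ℕ) - 1, hi⟩
        rwa [show (⟨(i : ℕ) - 1, hi⟩ : Fin m).succ = i from Fin.ext (by simp; omega)] at this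
      exact (Relation.ReflTransGen.head e1 (d_reach ⟨j, hj⟩ ⟨(i : ℕ) - 1, hi⟩
        (by simp; omega))).tail e2

theorem aograph_bounded (m : ℕ) (hm : 0 < m) : (aograph m).IsBounded := by
  have ha : ∀ i : Fin (m + 1), ∃ j : Fin (m + 1), Relation.ReflTransGen (IsEdge m) (.b j) (.a i) := by
    intro i
    by_cases h : i = 0
    · refine ⟨Fin.last m, (standard _ _).2 ?_⟩
      subst h
      intro h'
      have := congrArg Fin.val h'
      simp at this
      omega
    · exact ⟨0, (standard _ _).2 h⟩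
  have hb : ∀ i : Fin (m + 1), ∃ j : Fin (m + 1), Relation.ReflTransGen (IsEdge m) (.b i) (.a j) := by
    intro i
    by_cases h : i = 0
    · refine ⟨Fin.last m, (standard _ _).2 ?_⟩
      subst h
      intro h'
      have := congrArg Fin.val h'
      simp at this
      omega
    · exact ⟨0, (standard _ _).2 (Ne.symm h)⟩
  have top_b : ∀ i, Relation.ReflTransGen (IsEdge m) .top (.b i) := fun i =>
    Relation.ReflTransGen.single (IsEdge.tb i)
  have a_bot : ∀ i, Relation.ReflTransGen (IsEdge m) (.a i) .bot := fun i =>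
    Relation.ReflTransGen.single (IsEdge.ab i)
  refine ⟨⟨Vert.top, fun v => ?_⟩, ⟨Vert.bot, fun v => ?_⟩⟩
  · change Relation.ReflTransGen (IsEdge m) .top v
    cases v with
    | top => exact Relation.ReflTransGen.refl
    | bot =>
      obtain ⟨j, hj⟩ := ha 0
      exact ((top_b j).trans hj).trans (a_bot 0)
    | a i =>
      obtain ⟨j, hj⟩ := ha i
      exact (top_b j).trans hj
    | b i => exact top_b i
    | c i => exact (top_b _).tail (IsEdge.bc i)
    | d i => exact (top_b _).tail (IsEdge.bd i)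
  · change Relation.ReflTransGen (IsEdge m) v .bot
    cases v with
    | bot => exact Relation.ReflTransGen.refl
    | top =>
      obtain ⟨j, hj⟩ := ha 0
      exact ((top_b j).trans hj).trans (a_bot 0)
    | b i =>
      obtain ⟨j, hj⟩ := hb i
      exact hj.trans (a_bot j)
    | a i => exact a_bot i
    | c i => exact (a_bot _).head (IsEdge.ca i)
    | d i => exact (a_bot _).head (IsEdge.da i)

theorem aograph_dim (m : ℕ) : m + 1 ≤ orderDim (aograph m).V := by
  have : Finite (aograph m).V := (aograph m).finite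
  exact le_orderDim_of_standard (α := (aograph m).V) (k := m + 1)
    (fun i => Vert.a i) (fun j => Vert.b j) (fun i j => standard i j)

/-! ## The drawing -/

/-- The point with horizontal coordinates `x 0`, `x 1`, `x 2` in the directions `u`, `v`, `w`
and height `x 3`. -/
def place (u v w : ℝ × ℝ) (x : Fin 4 → ℝ) : Space :=
  ![x 0 * u.1 + x 1 * v.1 + x 2 * w.1, x 0 * u.2 + x 1 * v.2 + x 2 * w.2, x 3]

/-- At most one of the three horizontal coordinates is nonzero, and it is nonnegative. -/
def Tri (x : Fin 4 → ℝ) : Prop :=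
  (0 ≤ x 0 ∧ x 1 = 0 ∧ x 2 = 0) ∨ (x 0 = 0 ∧ 0 ≤ x 1 ∧ x 2 = 0) ∨ (x 0 = 0 ∧ x 1 = 0 ∧ 0 ≤ x 2)

/-- If two rays are distinct then they only meet at the origin. -/
theorem ray_inter {u v : ℝ × ℝ} (hu : u ≠ 0) (hv : v ≠ 0) (h : halfPlane u ≠ halfPlane v)
    {r s : ℝ} (hr : 0 ≤ r) (hs : 0 ≤ s) (h1 : r * u.1 = s * v.1) (h2 : r * u.2 = s * v.2) :
    r = 0 ∧ s = 0 := by
  have key : ∀ {u v : ℝ × ℝ}, u ≠ 0 → v ≠ 0 → halfPlane u ≠ halfPlane v → ∀ {r s : ℝ}, 0 ≤ r →
      0 ≤ s → r * u.1 = s * v.1 → r * u.2 = s * v.2 → r = 0 := by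
    intro u v hu hv h r s hr hs h1 h2
    by_contra hr0
    have hrpos : 0 < r := lt_of_le_of_ne hr (Ne.symm hr0)
    have hs0 : s ≠ 0 := by
      rintro rfl
      apply hu
      have e1 : u.1 = 0 := by simpa [hr0] using h1
      have e2 : u.2 = 0 := by simpa [hr0] using h2
      exact Prod.ext e1 e2
    have hspos : 0 < s := lt_of_le_of_ne hs (Ne.symm hs0)
    apply h
    have e1 : u.1 = s / r * v.1 := by field_simp; linarith
    have e2 : u.2 = s / r * v.2 := by field_simp; linarith
    ext p
    constructor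
    · rintro ⟨c, hc, h3, h4⟩
      refine ⟨c * (s / r), by positivity, ?_, ?_⟩
      · rw [h3, e1]; ring
      · rw [h4, e2]; ring
    · rintro ⟨c, hc, h3, h4⟩
      refine ⟨c * (r / s), by positivity, ?_, ?_⟩
      · rw [h3, e1]; field_simp
      · rw [h4, e2]; field_simp
  exact ⟨key hu hv h hr hs h1 h2, key hv hu (Ne.symm h) hs hr h1.symm h2.symm⟩

theorem same_ray {u : ℝ × ℝ} (hu : u ≠ 0) {r s : ℝ} (h1 : r * u.1 = s * u.1)
    (h2 : r * u.2 = s * u.2) : r = s := by
  by_contra hne
  apply hu
  have : r - s ≠ 0 := sub_ne_zero.2 hne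
  refine Prod.ext ?_ ?_
  · have : (r - s) * u.1 = 0 := by linarith
    simpa [sub_ne_zero.2 hne] using this
  · have : (r - s) * u.2 = 0 := by linarith
    simpa [sub_ne_zero.2 hne] using this

theorem place_inj {u v w : ℝ × ℝ} (hu : u ≠ 0) (hv : v ≠ 0) (hw : w ≠ 0)
    (huv : halfPlane u ≠ halfPlane v) (huw : halfPlane u ≠ halfPlane w)
    (hvw : halfPlane v ≠ halfPlane w) {x y : Fin 4 → ℝ} (hx : Tri x) (hy : Tri y)
    (h : place u v w x = place u v w y) : x 0 = y 0 ∧ x 1 = y 1 ∧ x 2 = y 2 ∧ x 3 = y 3 := by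
  have h0 : x 0 * u.1 + x 1 * v.1 + x 2 * w.1 = y 0 * u.1 + y 1 * v.1 + y 2 * w.1 :=
    congrFun h 0
  have h1 : x 0 * u.2 + x 1 * v.2 + x 2 * w.2 = y 0 * u.2 + y 1 * v.2 + y 2 * w.2 :=
    congrFun h 1
  have h2 : x 3 = y 3 := congrFun h 2
  rcases hx with ⟨a, b, c⟩ | ⟨a, b, c⟩ | ⟨a, b, c⟩ <;>
    rcases hy with ⟨a', b', c'⟩ | ⟨a', b', c'⟩ | ⟨a', b', c'⟩ <;>
    simp only [a, b, c, a', b', c', zero_mul, add_zero, zero_add] at h0 h1 ⊢
  · exact ⟨same_ray hu h0 h1, trivial, trivial, h2⟩
  · obtain ⟨p, q⟩ := ray_inter hu hv huv a b' h0 h1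
    exact ⟨p, q.symm, trivial, h2⟩
  · obtain ⟨p, q⟩ := ray_inter hu hw huw a c' h0 h1
    exact ⟨p, trivial, q.symm, h2⟩
  · obtain ⟨p, q⟩ := ray_inter hv hu huv.symm b a' h0 h1
    exact ⟨q.symm, p, trivial, h2⟩
  · exact ⟨trivial, same_ray hv h0 h1, trivial, h2⟩
  · obtain ⟨p, q⟩ := ray_inter hv hw hvw b c' h0 h1
    exact ⟨trivial, p, q.symm, h2⟩
  · obtain ⟨p, q⟩ := ray_inter hw hu huw.symm c a' h0 h1
    exact ⟨q.symm, trivial, p, h2⟩
  · obtain ⟨p, q⟩ := ray_inter hw hv hvw.symm c b' h0 h1
    exact ⟨trivial, q.symm, p, h2⟩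
  · exact ⟨trivial, trivial, same_ray hw h0 h1, h2⟩

/-- The straight line segment between two vertices, in coordinates. -/
noncomputable def seg (m : ℕ) (x y : Vert m) (s : ℝ) : Fin 4 → ℝ :=
  fun j => (1 - s) * coord m x j + s * coord m y j

theorem tri_coord (m : ℕ) (x : Vert m) : Tri (coord m x) := by
  cases x with
  | top => exact Or.inr (Or.inr ⟨rfl, rfl, zero_le_one⟩)
  | bot => exact Or.inr (Or.inr ⟨rfl, rfl, zero_le_one⟩)
  | a i => exact Or.inr (Or.inr ⟨rfl, rfl, le_rfl⟩)
  | b i => exact Or.inr (Or.inr ⟨rfl, rfl, le_rfl⟩)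
  | c i => exact Or.inl ⟨by simp only [coord, Matrix.cons_val]; positivity, rfl, rfl⟩
  | d i => exact Or.inr (Or.inl ⟨rfl, by simp only [coord, Matrix.cons_val]; positivity, rfl⟩)

theorem tri_seg {m : ℕ} {x y : Vert m} (h : IsEdge m x y) {s : ℝ} (h0 : 0 ≤ s) (h1 : s ≤ 1) :
    Tri (seg m x y s) := by
  have h1' : 0 ≤ 1 - s := by linarith
  cases h with
  | tb i => exact Or.inr (Or.inr ⟨by simp [seg, coord], by simp [seg, coord],
      by simp only [seg, coord, Matrix.cons_val]; positivity⟩)
  | ab i => exact Or.inr (Or.inr ⟨by simp [seg, coord], by simp [seg, coord],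
      by simp only [seg, coord, Matrix.cons_val]; positivity⟩)
  | cc i j h => exact Or.inl ⟨by simp only [seg, coord, Matrix.cons_val]; positivity,
      by simp [seg, coord], by simp [seg, coord]⟩
  | dd i j h => exact Or.inr (Or.inl ⟨by simp [seg, coord],
      by simp only [seg, coord, Matrix.cons_val]; positivity, by simp [seg, coord]⟩)
  | ca i => exact Or.inl ⟨by simp only [seg, coord, Matrix.cons_val]; positivity,
      by simp [seg, coord], by simp [seg, coord]⟩
  | da i => exact Or.inr (Or.inl ⟨by simp [seg, coord],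
      by simp only [seg, coord, Matrix.cons_val]; positivity, by simp [seg, coord]⟩)
  | bc i => exact Or.inl ⟨by simp only [seg, coord, Matrix.cons_val]; positivity,
      by simp [seg, coord], by simp [seg, coord]⟩
  | bd i => exact Or.inr (Or.inl ⟨by simp [seg, coord],
      by simp only [seg, coord, Matrix.cons_val]; positivity, by simp [seg, coord]⟩)

/-- Two integers at distance at most one. -/
theorem gap {k l : ℕ} {s s' : ℝ} (h0 : 0 ≤ s) (h1 : s ≤ 1) (h0' : 0 ≤ s') (h1' : s' ≤ 1)
    (h : (k : ℝ) - s = l - s') : k = l ∨ ((s = 0 ∨ s = 1) ∧ (s' = 0 ∨ s' = 1)) := by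
  rcases lt_trichotomy k l with hkl | hkl | hkl
  · have : (k : ℝ) + 1 ≤ l := by exact_mod_cast hkl
    exact Or.inr ⟨Or.inl (by linarith), Or.inr (by linarith)⟩
  · exact Or.inl hkl
  · have : (l : ℝ) + 1 ≤ k := by exact_mod_cast hkl
    exact Or.inr ⟨Or.inr (by linarith), Or.inl (by linarith)⟩

theorem gap' {k l : ℕ} {s : ℝ} (h0 : 0 ≤ s) (h1 : s ≤ 1) (h : (k : ℝ) = l + 1 - s) :
    s = 0 ∨ s = 1 := by
  rcases lt_or_ge l k with hkl | hkl
  · have : (l : ℝ) + 1 ≤ k := by exact_mod_cast hkl
    exact Or.inl (by linarith)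
  · have : (k : ℝ) ≤ l := by exact_mod_cast hkl
    exact Or.inr (by linarith)

/-- An arc meets the axis only in its endpoints. -/
theorem axis {m : ℕ} {x y : Vert m} (h : IsEdge m x y) {s : ℝ} (h0 : 0 ≤ s) (h1 : s ≤ 1)
    (e : seg m x y s 0 + seg m x y s 1 + seg m x y s 2 = 0) : s = 0 ∨ s = 1 := by
  cases h with
  | tb i =>
    simp only [seg, coord, Matrix.cons_val] at e
    exact Or.inr (by linarith)
  | ab i =>
    simp only [seg, coord, Matrix.cons_val] at e
    exact Or.inl (by linarith)
  | cc i j h =>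
    have hi : (0 : ℝ) ≤ ((i : ℕ) : ℝ) := by positivity
    have hj : ((i : ℕ) : ℝ) + 1 = (j : ℕ) := by exact_mod_cast h
    simp only [seg, coord, Matrix.cons_val, ← hj] at e
    exfalso; linarith
  | dd i j h =>
    have hi : (0 : ℝ) ≤ ((i : ℕ) : ℝ) := by positivity
    have hj : ((i : ℕ) : ℝ) + 1 = (j : ℕ) := by exact_mod_cast h
    simp only [seg, coord, Matrix.cons_val, ← hj] at e
    exfalso; linarith
  | ca i =>
    have hi : (((i : ℕ) : ℝ) + 1) ≠ 0 := by positivity
    simp only [seg, coord, Matrix.cons_val] at e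
    have : (1 - s) * (((i : ℕ) : ℝ) + 1) = 0 := by linarith
    rcases mul_eq_zero.1 this with h | h
    · exact Or.inr (by linarith)
    · exact absurd h hi
  | da i =>
    have hi : (((i : ℕ) : ℝ) + 1) ≠ 0 := by positivity
    simp only [seg, coord, Matrix.cons_val] at e
    have : (1 - s) * (((i : ℕ) : ℝ) + 1) = 0 := by linarith
    rcases mul_eq_zero.1 this with h | h
    · exact Or.inr (by linarith)
    · exact absurd h hi
  | bc i =>
    have hi : (((i : ℕ) : ℝ) + 1) ≠ 0 := by positivity
    simp only [seg, coord, Matrix.cons_val] at e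
    have : s * (((i : ℕ) : ℝ) + 1) = 0 := by linarith
    rcases mul_eq_zero.1 this with h | h
    · exact Or.inl h
    · exact absurd h hi
  | bd i =>
    have hi : (((i : ℕ) : ℝ) + 1) ≠ 0 := by positivity
    simp only [seg, coord, Matrix.cons_val] at e
    have : s * (((i : ℕ) : ℝ) + 1) = 0 := by linarith
    rcases mul_eq_zero.1 this with h | h
    · exact Or.inl h
    · exact absurd h hi

/-- A slanted arc below the diagonal meets the diagonal only in its endpoint. -/
theorem diag_aux {k l : ℕ} {c s s' : ℝ} (hc : 0 < c) (h0' : 0 ≤ s') (h1' : s' ≤ 1)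
    (e0 : (1 - s) * ((k : ℝ) + 1) = l + 2 - s') (e3 : s * c = 0) :
    (s = 0 ∨ s = 1) ∧ (s' = 0 ∨ s' = 1) := by
  rcases mul_eq_zero.1 e3 with h | h
  · subst h
    exact ⟨Or.inl rfl, gap' (k := k) (l := l) h0' h1' (by linarith)⟩
  · exact absurd h hc.ne'

/-- A slanted arc below and one above the diagonal meet only in their endpoints. -/
theorem two_zero {c d s s' : ℝ} (h0 : 0 ≤ s) (h1' : 0 ≤ 1 - s') (hc : 0 < c) (hd : 0 < d)
    (e : s * c + (1 - s') * d = 0) : (s = 0 ∨ s = 1) ∧ (s' = 0 ∨ s' = 1) := by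
  have p1 : 0 ≤ s * c := mul_nonneg h0 hc.le
  have p2 : 0 ≤ (1 - s') * d := mul_nonneg h1' hd.le
  have q1 : s * c = 0 := by linarith
  have q2 : (1 - s') * d = 0 := by linarith
  refine ⟨Or.inl ((mul_eq_zero.1 q1).resolve_right hc.ne'), Or.inr ?_⟩
  have := (mul_eq_zero.1 q2).resolve_right hd.ne'
  linarith

/-- The drawing has no crossings. -/
theorem seg_inter {m : ℕ} {x y x' y' : Vert m} (h : IsEdge m x y) (h' : IsEdge m x' y')
    (hne : (x, y) ≠ (x', y')) {s s' : ℝ} (h0 : 0 ≤ s) (h1 : s ≤ 1) (h0' : 0 ≤ s') (h1' : s' ≤ 1)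
    (e0 : seg m x y s 0 = seg m x' y' s' 0) (e1 : seg m x y s 1 = seg m x' y' s' 1)
    (e2 : seg m x y s 2 = seg m x' y' s' 2) (e3 : seg m x y s 3 = seg m x' y' s' 3) :
    (s = 0 ∨ s = 1) ∧ (s' = 0 ∨ s' = 1) := by
  have H := h
  have H' := h'
  cases h <;> cases h' <;>
    try (refine ⟨axis H h0 h1 ?_, axis H' h0' h1' ?_⟩ <;>
      simp only [seg, coord, Matrix.cons_val] at e0 e1 e2 ⊢ <;> linarith)
  case tb.tb i j =>
    simp only [seg, coord, Matrix.cons_val] at e2 e3
    have hss : s = s' := by linarith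
    subst hss
    have : s * (((i : ℕ) : ℝ) - (j : ℕ)) = 0 := by linarith
    rcases mul_eq_zero.1 this with h | h
    · exact ⟨Or.inl h, Or.inl h⟩
    · have hij : ((i : ℕ) : ℝ) = ((j : ℕ) : ℝ) := by linarith
      have : i = j := Fin.ext (by exact_mod_cast hij)
      exact absurd (by rw [this]) hne
  case tb.ab i j =>
    simp only [seg, coord, Matrix.cons_val] at e2 e3
    have hm : (0 : ℝ) ≤ (m : ℝ) := by positivity
    have hi : (0 : ℝ) ≤ ((i : ℕ) : ℝ) := by positivity
    have hj : (0 : ℝ) ≤ ((j : ℕ) : ℝ) := by positivity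
    exfalso
    nlinarith [mul_nonneg (sub_nonneg.2 h1) hm, mul_nonneg h0 hi,
      mul_nonneg (sub_nonneg.2 h1') hj, mul_nonneg h0' hm]
  case ab.tb i j =>
    simp only [seg, coord, Matrix.cons_val] at e2 e3
    have hm : (0 : ℝ) ≤ (m : ℝ) := by positivity
    have hi : (0 : ℝ) ≤ ((i : ℕ) : ℝ) := by positivity
    have hj : (0 : ℝ) ≤ ((j : ℕ) : ℝ) := by positivity
    exfalso
    nlinarith [mul_nonneg (sub_nonneg.2 h1) hi, mul_nonneg h0 hm,
      mul_nonneg (sub_nonneg.2 h1') hm, mul_nonneg h0' hj]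
  case ab.ab i j =>
    simp only [seg, coord, Matrix.cons_val] at e2 e3
    have hss : s = s' := by linarith
    subst hss
    have : (1 - s) * (((i : ℕ) : ℝ) - (j : ℕ)) = 0 := by linarith
    rcases mul_eq_zero.1 this with h | h
    · exact ⟨Or.inr (by linarith), Or.inr (by linarith)⟩
    · have hij : ((i : ℕ) : ℝ) = ((j : ℕ) : ℝ) := by linarith
      have : i = j := Fin.ext (by exact_mod_cast hij)
      exact absurd (by rw [this]) hne
  case cc.cc i j h i' j' h' =>
    have hj : ((i : ℕ) : ℝ) + 1 = (j : ℕ) := by exact_mod_cast h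
    have hj' : ((i' : ℕ) : ℝ) + 1 = (j' : ℕ) := by exact_mod_cast h'
    simp only [seg, coord, Matrix.cons_val, ← hj, ← hj'] at e0
    rcases gap (k := i) (l := i') h0 h1 h0' h1' (by linarith) with h3 | h3
    · have e1 : i = i' := Fin.ext h3
      have e2 : j = j' := Fin.ext (by omega)
      exact absurd (by rw [e1, e2]) hne
    · exact h3
  case cc.ca i j h k =>
    have hj : ((i : ℕ) : ℝ) + 1 = (j : ℕ) := by exact_mod_cast h
    simp only [seg, coord, Matrix.cons_val, ← hj, Fin.val_castSucc] at e0 e3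
    have := diag_aux (k := k) (l := i) (c := ((k : ℕ) : ℝ) + 1) (s := s') (s' := s)
      (by positivity) h0 h1 (by linarith) (by linarith)
    exact this.symm
  case cc.bc i j h k =>
    have hj : ((i : ℕ) : ℝ) + 1 = (j : ℕ) := by exact_mod_cast h
    simp only [seg, coord, Matrix.cons_val, ← hj, Fin.val_succ, Nat.cast_add, Nat.cast_one]
      at e0 e3
    have := diag_aux (k := k) (l := i) (c := ((k : ℕ) : ℝ) + 2) (s := 1 - s') (s' := s)
      (by positivity) h0 h1 (by linarith) (by linarith)
    rcases this with ⟨h3 | h3, h4⟩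
    · exact ⟨h4, Or.inr (by linarith)⟩
    · exact ⟨h4, Or.inl (by linarith)⟩
  case dd.dd i j h i' j' h' =>
    have hj : ((i : ℕ) : ℝ) + 1 = (j : ℕ) := by exact_mod_cast h
    have hj' : ((i' : ℕ) : ℝ) + 1 = (j' : ℕ) := by exact_mod_cast h'
    simp only [seg, coord, Matrix.cons_val, ← hj, ← hj'] at e1
    rcases gap (k := i) (l := i') (s := 1 - s) (s' := 1 - s') (by linarith) (by linarith)
      (by linarith) (by linarith) (by linarith) with h3 | ⟨h3, h4⟩
    · have e1 : i = i' := Fin.ext h3
      have e2 : j = j' := Fin.ext (by omega)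
      exact absurd (by rw [e1, e2]) hne
    · refine ⟨?_, ?_⟩
      · rcases h3 with h3 | h3
        · exact Or.inr (by linarith)
        · exact Or.inl (by linarith)
      · rcases h4 with h4 | h4
        · exact Or.inr (by linarith)
        · exact Or.inl (by linarith)
  case dd.da i j h k =>
    have hj : ((i : ℕ) : ℝ) + 1 = (j : ℕ) := by exact_mod_cast h
    simp only [seg, coord, Matrix.cons_val, ← hj, Fin.val_succ, Nat.cast_add, Nat.cast_one]
      at e1 e3
    have := diag_aux (k := k) (l := i) (c := ((k : ℕ) : ℝ) + 2) (s := s') (s' := 1 - s)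
      (by positivity) (by linarith) (by linarith) (by linarith) (by linarith)
    rcases this with ⟨h3, h4 | h4⟩
    · exact ⟨Or.inr (by linarith), h3⟩
    · exact ⟨Or.inl (by linarith), h3⟩
  case dd.bd i j h k =>
    have hj : ((i : ℕ) : ℝ) + 1 = (j : ℕ) := by exact_mod_cast h
    simp only [seg, coord, Matrix.cons_val, ← hj, Fin.val_castSucc] at e1 e3
    have := diag_aux (k := k) (l := i) (c := ((k : ℕ) : ℝ) + 1) (s := 1 - s') (s' := 1 - s)
      (by positivity) (by linarith) (by linarith) (by linarith) (by linarith)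
    rcases this with ⟨h3 | h3, h4 | h4⟩
    · exact ⟨Or.inr (by linarith), Or.inr (by linarith)⟩
    · exact ⟨Or.inl (by linarith), Or.inr (by linarith)⟩
    · exact ⟨Or.inr (by linarith), Or.inl (by linarith)⟩
    · exact ⟨Or.inl (by linarith), Or.inl (by linarith)⟩
  case ca.cc k i j h =>
    have hj : ((i : ℕ) : ℝ) + 1 = (j : ℕ) := by exact_mod_cast h
    simp only [seg, coord, Matrix.cons_val, ← hj, Fin.val_castSucc] at e0 e3
    exact diag_aux (k := k) (l := i) (c := ((k : ℕ) : ℝ) + 1) (s := s) (s' := s')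
      (by positivity) h0' h1' (by linarith) (by linarith)
  case ca.ca k l =>
    simp only [seg, coord, Matrix.cons_val, Fin.val_castSucc] at e0 e3
    have hkl : ((k : ℕ) : ℝ) = ((l : ℕ) : ℝ) := by linarith
    have : k = l := Fin.ext (by exact_mod_cast hkl)
    exact absurd (by rw [this]) hne
  case ca.bc k l =>
    simp only [seg, coord, Matrix.cons_val, Fin.val_castSucc, Fin.val_succ, Nat.cast_add,
      Nat.cast_one] at e0 e3
    have hk : (0 : ℝ) < ((k : ℕ) : ℝ) + 1 := by positivity
    have hl : (0 : ℝ) < ((l : ℕ) : ℝ) + 2 := by positivity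
    exact two_zero h0 (by linarith) hk hl (by linarith)
  case da.dd k i j h =>
    have hj : ((i : ℕ) : ℝ) + 1 = (j : ℕ) := by exact_mod_cast h
    simp only [seg, coord, Matrix.cons_val, ← hj, Fin.val_succ, Nat.cast_add, Nat.cast_one]
      at e1 e3
    have := diag_aux (k := k) (l := i) (c := ((k : ℕ) : ℝ) + 2) (s := s) (s' := 1 - s')
      (by positivity) (by linarith) (by linarith) (by linarith) (by linarith)
    rcases this with ⟨h3, h4 | h4⟩
    · exact ⟨h3, Or.inr (by linarith)⟩
    · exact ⟨h3, Or.inl (by linarith)⟩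
  case da.da k l =>
    simp only [seg, coord, Matrix.cons_val, Fin.val_succ, Nat.cast_add, Nat.cast_one] at e1 e3
    rcases gap (k := k) (l := l) (s := 1 - s) (s' := 1 - s') (by linarith) (by linarith)
      (by linarith) (by linarith) (by linarith) with h3 | ⟨h3, h4⟩
    · have : k = l := Fin.ext h3
      exact absurd (by rw [this]) hne
    · refine ⟨?_, ?_⟩
      · rcases h3 with h3 | h3
        · exact Or.inr (by linarith)
        · exact Or.inl (by linarith)
      · rcases h4 with h4 | h4
        · exact Or.inr (by linarith)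
        · exact Or.inl (by linarith)
  case da.bd k l =>
    simp only [seg, coord, Matrix.cons_val, Fin.val_castSucc, Fin.val_succ, Nat.cast_add,
      Nat.cast_one] at e1 e3
    have hk : (0 : ℝ) < ((k : ℕ) : ℝ) + 2 := by positivity
    have hl : (0 : ℝ) < ((l : ℕ) : ℝ) + 1 := by positivity
    exact two_zero h0 (by linarith) hk hl (by linarith)
  case bc.cc k i j h =>
    have hj : ((i : ℕ) : ℝ) + 1 = (j : ℕ) := by exact_mod_cast h
    simp only [seg, coord, Matrix.cons_val, ← hj, Fin.val_succ, Nat.cast_add, Nat.cast_one]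
      at e0 e3
    have := diag_aux (k := k) (l := i) (c := ((k : ℕ) : ℝ) + 2) (s := 1 - s) (s' := s')
      (by positivity) h0' h1' (by linarith) (by linarith)
    rcases this with ⟨h3 | h3, h4⟩
    · exact ⟨Or.inr (by linarith), h4⟩
    · exact ⟨Or.inl (by linarith), h4⟩
  case bc.ca k l =>
    simp only [seg, coord, Matrix.cons_val, Fin.val_castSucc, Fin.val_succ, Nat.cast_add,
      Nat.cast_one] at e0 e3
    have hk : (0 : ℝ) < ((k : ℕ) : ℝ) + 2 := by positivity
    have hl : (0 : ℝ) < ((l : ℕ) : ℝ) + 1 := by positivity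
    exact (two_zero (s := s') (s' := s) h0' (by linarith) hl hk (by linarith)).symm
  case bc.bc k l =>
    simp only [seg, coord, Matrix.cons_val, Fin.val_succ, Nat.cast_add, Nat.cast_one] at e0 e3
    rcases gap (k := k) (l := l) h0 h1 h0' h1' (by linarith) with h3 | h3
    · have : k = l := Fin.ext h3
      exact absurd (by rw [this]) hne
    · exact h3
  case bd.dd k i j h =>
    have hj : ((i : ℕ) : ℝ) + 1 = (j : ℕ) := by exact_mod_cast h
    simp only [seg, coord, Matrix.cons_val, ← hj, Fin.val_castSucc] at e1 e3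
    have := diag_aux (k := k) (l := i) (c := ((k : ℕ) : ℝ) + 1) (s := 1 - s) (s' := 1 - s')
      (by positivity) (by linarith) (by linarith) (by linarith) (by linarith)
    rcases this with ⟨h3 | h3, h4 | h4⟩
    · exact ⟨Or.inr (by linarith), Or.inr (by linarith)⟩
    · exact ⟨Or.inr (by linarith), Or.inl (by linarith)⟩
    · exact ⟨Or.inl (by linarith), Or.inr (by linarith)⟩
    · exact ⟨Or.inl (by linarith), Or.inl (by linarith)⟩
  case bd.da k l =>
    simp only [seg, coord, Matrix.cons_val, Fin.val_castSucc, Fin.val_succ, Nat.cast_add,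
      Nat.cast_one] at e1 e3
    have hk : (0 : ℝ) < ((k : ℕ) : ℝ) + 1 := by positivity
    have hl : (0 : ℝ) < ((l : ℕ) : ℝ) + 2 := by positivity
    exact (two_zero (s := s') (s' := s) h0' (by linarith) hl hk (by linarith)).symm
  case bd.bd k l =>
    simp only [seg, coord, Matrix.cons_val, Fin.val_castSucc] at e1 e3
    have hkl : ((k : ℕ) : ℝ) = ((l : ℕ) : ℝ) := by linarith
    have : k = l := Fin.ext (by exact_mod_cast hkl)
    exact absurd (by rw [this]) hne

theorem coord_injective (m : ℕ) {x y : Vert m} (h0 : coord m x 0 = coord m y 0)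
    (h1 : coord m x 1 = coord m y 1) (h2 : coord m x 2 = coord m y 2)
    (h3 : coord m x 3 = coord m y 3) : x = y := by
  have pos : ∀ {n : ℕ} (i : Fin n), (0 : ℝ) ≤ ((i : ℕ) : ℝ) := fun i => by positivity
  have pm : (0 : ℝ) ≤ (m : ℝ) := by positivity
  have ext : ∀ {n : ℕ} (i j : Fin n), ((i : ℕ) : ℝ) = ((j : ℕ) : ℝ) → i = j := fun i j h =>
    Fin.ext (by exact_mod_cast h)
  cases x with
  | top =>
    cases y <;> simp only [coord, Matrix.cons_val] at h0 h1 h2 h3
    · rfl
    · exfalso; linarith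
    · exfalso; linarith
    · exfalso; linarith
    · exfalso; linarith
    · exfalso; linarith
  | bot =>
    cases y <;> simp only [coord, Matrix.cons_val] at h0 h1 h2 h3
    · exfalso; linarith
    · rfl
    · exfalso; linarith
    · exfalso; linarith
    · exfalso; linarith
    · exfalso; linarith
  | a i =>
    have := pos i
    cases y with
    | top => simp only [coord, Matrix.cons_val] at h0 h1 h2 h3; exfalso; linarith
    | bot => simp only [coord, Matrix.cons_val] at h0 h1 h2 h3; exfalso; linarith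
    | a j =>
      simp only [coord, Matrix.cons_val] at h0 h1 h2 h3
      rw [ext i j (by linarith)]
    | b j =>
      have := pos j
      simp only [coord, Matrix.cons_val] at h0 h1 h2 h3; exfalso; linarith
    | c j =>
      have := pos j
      simp only [coord, Matrix.cons_val] at h0 h1 h2 h3; exfalso; linarith
    | d j =>
      have := pos j
      simp only [coord, Matrix.cons_val] at h0 h1 h2 h3; exfalso; linarith
  | b i =>
    have := pos i
    cases y with
    | top => simp only [coord, Matrix.cons_val] at h0 h1 h2 h3; exfalso; linarith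
    | bot => simp only [coord, Matrix.cons_val] at h0 h1 h2 h3; exfalso; linarith
    | a j =>
      have := pos j
      simp only [coord, Matrix.cons_val] at h0 h1 h2 h3; exfalso; linarith
    | b j =>
      simp only [coord, Matrix.cons_val] at h0 h1 h2 h3
      rw [ext i j (by linarith)]
    | c j =>
      have := pos j
      simp only [coord, Matrix.cons_val] at h0 h1 h2 h3; exfalso; linarith
    | d j =>
      have := pos j
      simp only [coord, Matrix.cons_val] at h0 h1 h2 h3; exfalso; linarith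
  | c i =>
    have := pos i
    cases y with
    | top => simp only [coord, Matrix.cons_val] at h0 h1 h2 h3; exfalso; linarith
    | bot => simp only [coord, Matrix.cons_val] at h0 h1 h2 h3; exfalso; linarith
    | a j => simp only [coord, Matrix.cons_val] at h0 h1 h2 h3; exfalso; linarith
    | b j => simp only [coord, Matrix.cons_val] at h0 h1 h2 h3; exfalso; linarith
    | c j =>
      simp only [coord, Matrix.cons_val] at h0 h1 h2 h3
      rw [ext i j (by linarith)]
    | d j => simp only [coord, Matrix.cons_val] at h0 h1 h2 h3; exfalso; linarith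
  | d i =>
    have := pos i
    cases y with
    | top => simp only [coord, Matrix.cons_val] at h0 h1 h2 h3; exfalso; linarith
    | bot => simp only [coord, Matrix.cons_val] at h0 h1 h2 h3; exfalso; linarith
    | a j => simp only [coord, Matrix.cons_val] at h0 h1 h2 h3; exfalso; linarith
    | b j => simp only [coord, Matrix.cons_val] at h0 h1 h2 h3; exfalso; linarith
    | c j => simp only [coord, Matrix.cons_val] at h0 h1 h2 h3; exfalso; linarith
    | d j =>
      simp only [coord, Matrix.cons_val] at h0 h1 h2 h3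
      rw [ext i j (by linarith)]

/-- Every vertex is an endpoint of some edge (when `0 < m`). -/
theorem exists_edge {m : ℕ} (v : Vert m) : (∃ y, IsEdge m v y) ∨ (∃ x, IsEdge m x v) := by
  cases v with
  | top => exact Or.inl ⟨_, IsEdge.tb 0⟩
  | bot => exact Or.inr ⟨_, IsEdge.ab 0⟩
  | a i => exact Or.inl ⟨_, IsEdge.ab i⟩
  | b i => exact Or.inr ⟨_, IsEdge.tb i⟩
  | c i => exact Or.inl ⟨_, IsEdge.ca i⟩
  | d i => exact Or.inl ⟨_, IsEdge.da i⟩

theorem seg_zero (m : ℕ) (x y : Vert m) : seg m x y 0 = coord m x := by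
  funext j; simp [seg]

theorem seg_one (m : ℕ) (x y : Vert m) : seg m x y 1 = coord m y := by
  funext j; simp [seg]

theorem place_mem {n : ℕ} {H : Fin n → Set Space} {u v w : ℝ × ℝ} {i j k : Fin n}
    (hi : H i = halfPlane u) (hj : H j = halfPlane v) (hk : H k = halfPlane w)
    {x : Fin 4 → ℝ} (hx : Tri x) : place u v w x ∈ ⋃ l, H l := by
  rw [Set.mem_iUnion]
  rcases hx with ⟨a, b, c⟩ | ⟨a, b, c⟩ | ⟨a, b, c⟩
  · exact ⟨i, by rw [hi]; exact ⟨x 0, a, by simp [place, b, c], by simp [place, b, c]⟩⟩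
  · exact ⟨j, by rw [hj]; exact ⟨x 1, b, by simp [place, a, c], by simp [place, a, c]⟩⟩
  · exact ⟨k, by rw [hk]; exact ⟨x 2, c, by simp [place, a, b], by simp [place, a, b]⟩⟩

theorem place_seg_pl (u v w : ℝ × ℝ) (m : ℕ) (x y : Vert m) :
    IsPiecewiseLinear (fun s => place u v w (seg m x y s)) := by
  refine ⟨1, fun i => ((i : ℕ) : ℝ), by simp, by simp, fun i j h => by
    simpa using (show (i : ℕ) ≤ j from h), fun i => ?_⟩
  refine ⟨place u v w (coord m x), place u v w (fun j => coord m y j - coord m x j),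
    fun s _ => ?_⟩
  funext j
  fin_cases j <;> simp [place, seg] <;> ring

/-- The drawing of the `m`-th aograph in a book with at least three pages. -/
theorem exists_embedding (m n : ℕ) (hn : 3 ≤ n) (B : Set Space) (hB : IsBook n B) :
    Nonempty (OrderPreservingEmbedding (aograph m) B) := by
  obtain ⟨H, hinj, hH, rfl⟩ := hB
  obtain ⟨u, hu, eu⟩ := hH ⟨0, by omega⟩
  obtain ⟨v, hv, ev⟩ := hH ⟨1, by omega⟩
  obtain ⟨w, hw, ew⟩ := hH ⟨2, by omega⟩
  have huv : halfPlane u ≠ halfPlane v := by
    rw [← eu, ← ev]; exact fun h => by simpa using hinj h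
  have huw : halfPlane u ≠ halfPlane w := by
    rw [← eu, ← ew]; exact fun h => by simpa using hinj h
  have hvw : halfPlane v ≠ halfPlane w := by
    rw [← ev, ← ew]; exact fun h => by simpa using hinj h
  have down : ∀ b a : Vert m, IsEdge m b a →
      StrictAntiOn (fun s => place u v w (seg m b a s) 2) (Set.Icc (0 : ℝ) 1) := by
    intro b a h s _ t _ hst
    have := height_lt h
    change seg m b a t 3 < seg m b a s 3
    simp only [seg]
    nlinarith
  have inter : ∀ b a b' a' : Vert m, IsEdge m b a → IsEdge m b' a' → (b, a) ≠ (b', a') →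
      ∀ s ∈ Set.Icc (0 : ℝ) 1, ∀ s' ∈ Set.Icc (0 : ℝ) 1,
      place u v w (seg m b a s) = place u v w (seg m b' a' s') →
      (s = 0 ∨ s = 1) ∧ (s' = 0 ∨ s' = 1) := by
    intro b a b' a' h h' hne s hs s' hs' e
    obtain ⟨e0, e1, e2, e3⟩ := place_inj hu hv hw huv huw hvw (tri_seg h hs.1 hs.2)
      (tri_seg h' hs'.1 hs'.2) e
    exact seg_inter h h' hne hs.1 hs.2 hs'.1 hs'.2 e0 e1 e2 e3
  refine ⟨{
    pos := fun x => place u v w (coord m x)
    pos_injective := ?_
    pos_mem := fun x => place_mem eu ev ew (tri_coord m x)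
    arc := fun b a s => place u v w (seg m b a s)
    arc_pl := fun b a _ => place_seg_pl u v w m b a
    arc_zero := fun b a _ => congrArg (place u v w) (seg_zero m b a)
    arc_one := fun b a _ => congrArg (place u v w) (seg_one m b a)
    arc_mem := fun b a h s hs => place_mem eu ev ew (tri_seg h hs.1 hs.2)
    arc_down := down
    arc_inter := inter
    arc_vertex := ?_ }⟩
  · intro x y h
    obtain ⟨h0, h1, h2, h3⟩ := place_inj hu hv hw huv huw hvw (tri_coord m x) (tri_coord m y) h
    exact coord_injective m h0 h1 h2 h3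
  · intro b a x h s hs e
    have zero : (0 : ℝ) ∈ Set.Icc (0 : ℝ) 1 := ⟨le_rfl, zero_le_one⟩
    have one : (1 : ℝ) ∈ Set.Icc (0 : ℝ) 1 := ⟨zero_le_one, le_rfl⟩
    have inj := (down b a h).injOn
    rcases exists_edge x with ⟨y, hy⟩ | ⟨y, hy⟩
    · have e' : place u v w (seg m b a s) = place u v w (seg m x y 0) :=
        e.trans (congrArg (place u v w) (seg_zero m x y)).symm
      by_cases hne : (b, a) = (x, y)
      · obtain ⟨rfl, rfl⟩ := Prod.mk.inj hne
        exact Or.inl (inj hs zero (congrFun e' 2))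
      · exact (inter b a x y h hy hne s hs 0 zero e').1
    · have e' : place u v w (seg m b a s) = place u v w (seg m y x 1) :=
        e.trans (congrArg (place u v w) (seg_one m y x)).symm
      by_cases hne : (b, a) = (y, x)
      · obtain ⟨rfl, rfl⟩ := Prod.mk.inj hne
        exact Or.inr (inj hs one (congrFun e' 2))
      · exact (inter b a y x h hy hne s hs 1 one e').1

/-- Sanity check: books with any number of pages exist. -/
theorem exists_book (n : ℕ) : ∃ B : Set Space, IsBook n B := by
  refine ⟨⋃ i : Fin n, halfPlane (1, ((i : ℕ) : ℝ)), fun i => halfPlane (1, ((i : ℕ) : ℝ)),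
    ?_, fun i => ⟨_, by simp, rfl⟩, rfl⟩
  intro i j h
  have : (![1, ((i : ℕ) : ℝ), 0] : Space) ∈ halfPlane (1, ((j : ℕ) : ℝ)) := by
    have h' : halfPlane (1, ((i : ℕ) : ℝ)) = halfPlane (1, ((j : ℕ) : ℝ)) := h
    rw [← h']
    exact ⟨1, zero_le_one, by simp, by simp⟩
  obtain ⟨r, -, h1, h2⟩ := this
  simp at h1 h2
  rw [← h1] at h2
  exact Fin.ext (by exact_mod_cast (by linarith : ((i : ℕ) : ℝ) = (j : ℕ)))

end Pool.Agent.Helper46.Book
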